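import Mathlib
import Pool.Agent.Results.MP_fe892a_gt.ClosedCounterexample

open Set Topology

noncomputable section

namespace Pool.Agent.Results.MP_cdfe0d_gt.DisjointFatContinua

open Pool.Agent.Results.MP_fe892a_gt.ClosedCounterexample (Sol Sol.line Sol.line_coord
  Sol.continuous_line Sol.continuous_coord Sol.steps Sol.eq_of_eq Sol.eq_univ Sol.connectedSpace
  Sol.metrizable exists_rep norm_coe_le)

/-- `K` is a subcontinuum of the space `S`: a nonempty compact connected subset. -/
def Subcontinuum {S : Type*} [TopologicalSpace S] (K : Set S) : Prop :=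
  IsCompact K ∧ K.Nonempty ∧ IsPreconnected K

/-- `X` is an indecomposable continuum: a nonempty compact connected Hausdorff space which is not
the union of two proper subcontinua. -/
def IndecomposableContinuum (X : Type*) [TopologicalSpace X] : Prop :=
  T2Space X ∧ CompactSpace X ∧ ConnectedSpace X ∧
    ∀ A B : Set X, Subcontinuum A → Subcontinuum B → A ∪ B = univ → A = univ ∨ B = univ

/-- Jones's set function `T`: `T(A)` is the set of all points `p` such that no subcontinuum of the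
space contains `p` in its interior and misses `A`. -/
def setT {S : Type*} [TopologicalSpace S] (A : Set S) : Set S :=
  univ \ {p | ∃ K : Set S, Subcontinuum K ∧ p ∈ interior K ∧ K ∩ A = ∅}

theorem indecomposable_sol {p : ℕ} (hp : 2 ≤ p) : IndecomposableContinuum (Sol p) := by
  have := Sol.connectedSpace (p := p) (by omega)
  refine ⟨inferInstance, inferInstance, inferInstance, ?_⟩
  intro A B hA hB hAB
  by_contra hcon
  push Not at hcon
  obtain ⟨hA', hB'⟩ := hcon
  apply hB'
  have hsub : Aᶜ ⊆ B := by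
    intro x hx
    have : x ∈ A ∪ B := by rw [hAB]; trivial
    exact this.resolve_left hx
  have hopen : IsOpen Aᶜ := hA.1.isClosed.isOpen_compl
  obtain ⟨x, hx⟩ := nonempty_compl.mpr hA'
  exact Sol.eq_univ hp hB.1.isClosed hB.2.2 ⟨x, interior_maximal hsub hopen hx⟩

/-- Over a common base coordinate, two points of the solenoids of coprime degrees can be followed
simultaneously, up to any level, along the diagonal line. -/
theorem exists_time {p q : ℕ} (hp : p ≠ 0) (hq : q ≠ 0) (hpq : p.Coprime q)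
    (x : Sol p) (y : Sol q) (h : x.1 0 = y.1 0) (n : ℕ) :
    ∃ t : ℝ, (Sol.line p hp t).1 n = x.1 n ∧ (Sol.line q hq t).1 n = y.1 n := by
  have hpR : (p : ℝ) ≠ 0 := by exact_mod_cast hp
  have hqR : (q : ℝ) ≠ 0 := by exact_mod_cast hq
  obtain ⟨α, hα⟩ := QuotientAddGroup.mk_surjective (x.1 n)
  obtain ⟨β, hβ⟩ := QuotientAddGroup.mk_surjective (y.1 n)
  have hα' : ((α : ℝ) : UnitAddCircle) = x.1 n := hα
  have hβ' : ((β : ℝ) : UnitAddCircle) = y.1 n := hβ
  have hx := Sol.steps x 0 n
  have hy := Sol.steps y 0 n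
  rw [zero_add] at hx hy
  have h0 : (((p : ℝ) ^ n * α - (q : ℝ) ^ n * β : ℝ) : UnitAddCircle) = 0 := by
    have e1 : (((p : ℝ) ^ n * α : ℝ) : UnitAddCircle) = x.1 0 := by
      rw [← hx, ← hα', ← AddCircle.coe_nsmul, nsmul_eq_mul]
      push_cast
      rfl
    have e2 : (((q : ℝ) ^ n * β : ℝ) : UnitAddCircle) = y.1 0 := by
      rw [← hy, ← hβ', ← AddCircle.coe_nsmul, nsmul_eq_mul]
      push_cast
      rfl
    rw [AddCircle.coe_sub, e1, e2, h, sub_self]
  rw [AddCircle.coe_eq_zero_iff] at h0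
  obtain ⟨k, hk⟩ := h0
  rw [zsmul_eq_mul, mul_one] at hk
  have hcop : IsCoprime ((p : ℤ) ^ n) ((q : ℤ) ^ n) :=
    IsCoprime.pow (Nat.isCoprime_iff_coprime.mpr hpq)
  obtain ⟨a, b, hab⟩ := hcop
  have habR : (a : ℝ) * (p : ℝ) ^ n + b * (q : ℝ) ^ n = 1 := by exact_mod_cast hab
  refine ⟨(p : ℝ) ^ n * (α - k * a), ?_, ?_⟩
  · rw [Sol.line_coord, ← hα']
    have : ((p : ℝ) ^ n * (α - k * a) / (p : ℝ) ^ n : ℝ) = α - ((k * a : ℤ) : ℝ) := by
      push_cast
      field_simp
    rw [this, AddCircle.coe_sub]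
    have h1 : (((k * a : ℤ) : ℝ) : UnitAddCircle) = 0 := by
      rw [AddCircle.coe_eq_zero_iff]
      exact ⟨k * a, by simp⟩
    rw [h1, sub_zero]
  · rw [Sol.line_coord, ← hβ']
    have : ((p : ℝ) ^ n * (α - k * a) / (q : ℝ) ^ n : ℝ) = β + ((k * b : ℤ) : ℝ) := by
      push_cast
      rw [div_eq_iff (by positivity)]
      linear_combination hk.symm - k * habR
    rw [this, AddCircle.coe_add]
    have h1 : (((k * b : ℤ) : ℝ) : UnitAddCircle) = 0 := by
      rw [AddCircle.coe_eq_zero_iff]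
      exact ⟨k * b, by simp⟩
    rw [h1, add_zero]

/-- The kernel of the character `(x, y) ↦ x₀ - y₀` is connected when the degrees are coprime. -/
theorem isConnected_kernel {p q : ℕ} (hp : p ≠ 0) (hq : q ≠ 0) (hpq : p.Coprime q) :
    IsConnected {z : Sol p × Sol q | z.1.1 0 = z.2.1 0} := by
  have hc : Continuous fun t : ℝ => (Sol.line p hp t, Sol.line q hq t) :=
    (Sol.continuous_line _).prodMk (Sol.continuous_line _)
  refine (isConnected_range hc).subset_closure ?_ ?_
  · rintro _ ⟨t, rfl⟩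
    show ((t / _ : ℝ) : UnitAddCircle) = ((t / _ : ℝ) : UnitAddCircle)
    simp
  · rintro ⟨x, y⟩ hxy
    have hxy' : x.1 0 = y.1 0 := hxy
    choose t ht1 ht2 using exists_time hp hq hpq x y hxy'
    refine mem_closure_of_tendsto (b := Filter.atTop)
      (f := fun n => (Sol.line p hp (t n), Sol.line q hq (t n))) ?_
      (Filter.Eventually.of_forall fun n => ⟨t n, rfl⟩)
    refine Filter.Tendsto.prodMk_nhds ?_ ?_
    · rw [tendsto_subtype_rng, tendsto_pi_nhds]
      intro m
      refine tendsto_const_nhds.congr' ?_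
      filter_upwards [Filter.eventually_ge_atTop m] with n hn
      exact (Sol.eq_of_eq (ht1 n) hn).symm
    · rw [tendsto_subtype_rng, tendsto_pi_nhds]
      intro m
      refine tendsto_const_nhds.congr' ?_
      filter_upwards [Filter.eventually_ge_atTop m] with n hn
      exact (Sol.eq_of_eq (ht2 n) hn).symm

/-- The closed strip of radius `δ` around the translate of the kernel by `c`. -/
def strip (p q : ℕ) (c δ : ℝ) : Set (Sol p × Sol q) :=
  {z | ‖z.1.1 0 - z.2.1 0 - (c : UnitAddCircle)‖ ≤ δ}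

theorem line_zero {q : ℕ} (hq : q ≠ 0) (t : ℝ) : (Sol.line q hq t).1 0 = (t : UnitAddCircle) := by
  rw [Sol.line_coord]; simp

theorem isConnected_strip {p q : ℕ} (hp : p ≠ 0) (hq : q ≠ 0) (hpq : p.Coprime q)
    (c δ : ℝ) (hδ : 0 ≤ δ) : IsConnected (strip p q c δ) := by
  have hI : IsConnected (Icc (-δ) δ) := isConnected_Icc (by linarith)
  have h1 := (isConnected_kernel hp hq hpq).prod hI
  let F : (Sol p × Sol q) × ℝ → Sol p × Sol q :=
    fun w => (w.1.1, w.1.2 - Sol.line q hq (c + w.2))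
  have hF : Continuous F := by
    refine Continuous.prodMk (continuous_fst.comp continuous_fst) ?_
    exact (continuous_snd.comp continuous_fst).sub
      ((Sol.continuous_line _).comp (continuous_const.add continuous_snd))
  have h2 := h1.image F hF.continuousOn
  convert h2 using 1
  ext ⟨x, y⟩
  constructor
  · intro hxy
    have hxy' : ‖x.1 0 - y.1 0 - (c : UnitAddCircle)‖ ≤ δ := hxy
    obtain ⟨s, hs1, hs2⟩ := exists_rep (x.1 0 - y.1 0 - (c : UnitAddCircle))
    refine ⟨((x, y + Sol.line q hq (c + s)), s), ⟨?_, ?_⟩, ?_⟩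
    · show x.1 0 = y.1 0 + (Sol.line q hq (c + s)).1 0
      rw [line_zero, AddCircle.coe_add, hs1]
      abel
    · rw [← hs2] at hxy'
      exact abs_le.mp hxy'
    · show (x, y + Sol.line q hq (c + s) - Sol.line q hq (c + s)) = (x, y)
      rw [add_sub_cancel_right]
  · rintro ⟨⟨⟨x', y'⟩, s⟩, ⟨hd, hs⟩, he⟩
    have hd' : x'.1 0 = y'.1 0 := hd
    have he1 : x' = x := congrArg Prod.fst he
    have he2 : y' - Sol.line q hq (c + s) = y := congrArg Prod.snd he
    subst he1
    subst he2
    show ‖x'.1 0 - (y'.1 0 - (Sol.line q hq (c + s)).1 0) - (c : UnitAddCircle)‖ ≤ δ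
    rw [line_zero, AddCircle.coe_add, hd']
    have : y'.1 0 - (y'.1 0 - ((c : UnitAddCircle) + (s : UnitAddCircle))) - (c : UnitAddCircle)
        = (s : UnitAddCircle) := by abel
    rw [this]
    exact (norm_coe_le s).trans (abs_le.mpr hs)

theorem continuous_chi (p q : ℕ) (c : ℝ) :
    Continuous fun z : Sol p × Sol q => ‖z.1.1 0 - z.2.1 0 - (c : UnitAddCircle)‖ :=
  ((((Sol.continuous_coord 0).comp continuous_fst).sub
    ((Sol.continuous_coord 0).comp continuous_snd)).sub continuous_const).norm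

theorem isClosed_strip (p q : ℕ) (c δ : ℝ) : IsClosed (strip p q c δ) :=
  isClosed_le (continuous_chi p q c) continuous_const

theorem interior_strip {p q : ℕ} (hp : p ≠ 0) (c δ : ℝ) (hδ : 0 < δ) :
    (interior (strip p q c δ)).Nonempty := by
  refine ⟨(Sol.line p hp c, 0), ?_⟩
  have hopen : IsOpen {z : Sol p × Sol q | ‖z.1.1 0 - z.2.1 0 - (c : UnitAddCircle)‖ < δ} :=
    isOpen_lt (continuous_chi p q c) continuous_const
  refine interior_maximal (s := strip p q c δ) (fun z hz => ?_) hopen ?_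
  · exact le_of_lt (show ‖z.1.1 0 - z.2.1 0 - (c : UnitAddCircle)‖ < δ from hz)
  · show ‖(Sol.line p hp c).1 0 - (0 : UnitAddCircle) - (c : UnitAddCircle)‖ < δ
    rw [line_zero]
    simpa using hδ

theorem disjoint_strip {p q : ℕ} {c c' δ δ' : ℝ} (h1 : |c - c'| ≤ 1 / 2)
    (h2 : δ + δ' < |c - c'|) : Disjoint (strip p q c δ) (strip p q c' δ') := by
  rw [Set.disjoint_left]
  intro z hz hz'
  have hz1 : ‖z.1.1 0 - z.2.1 0 - (c : UnitAddCircle)‖ ≤ δ := hz
  have hz2 : ‖z.1.1 0 - z.2.1 0 - (c' : UnitAddCircle)‖ ≤ δ' := hz'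
  have h3 : ‖((c - c' : ℝ) : UnitAddCircle)‖ = |c - c'| := by
    rw [AddCircle.norm_coe_eq_abs_iff (1 : ℝ) one_ne_zero]
    simpa using h1
  have h4 : ((c - c' : ℝ) : UnitAddCircle) =
      (z.1.1 0 - z.2.1 0 - (c' : UnitAddCircle)) - (z.1.1 0 - z.2.1 0 - (c : UnitAddCircle)) := by
    rw [AddCircle.coe_sub]; abel
  have h5 := norm_sub_le (z.1.1 0 - z.2.1 0 - (c' : UnitAddCircle))
    (z.1.1 0 - z.2.1 0 - (c : UnitAddCircle))
  rw [← h4, h3] at h5
  linarith

/-- The `p`-adic solenoid, as a set of sequences in the circle `ℝ/ℤ`. -/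
def solenoid (p : ℕ) : Set (ℕ → UnitAddCircle) := {x | ∀ n, p • x (n + 1) = x n}

theorem main (p q : ℕ) (hp : 2 ≤ p) (hq : 2 ≤ q) (hpq : p.Coprime q) :
    (IndecomposableContinuum (Sol p) ∧ TopologicalSpace.MetrizableSpace (Sol p)) ∧
    (IndecomposableContinuum (Sol q) ∧ TopologicalSpace.MetrizableSpace (Sol q)) ∧
    ∃ W : ℕ → Set (Sol p × Sol q),
      (∀ n, Subcontinuum (W n) ∧ (interior (W n)).Nonempty ∧ setT (W n) ≠ univ) ∧
      ∀ m n, m ≠ n → Disjoint (W m) (W n) := by
  have hp0 : p ≠ 0 := by omega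
  have hq0 : q ≠ 0 := by omega
  refine ⟨⟨indecomposable_sol hp, Sol.metrizable p⟩, ⟨indecomposable_sol hq, Sol.metrizable q⟩, ?_⟩
  let c : ℕ → ℝ := fun n => (1 / 2) ^ (n + 2)
  let δ : ℕ → ℝ := fun n => (1 / 2) ^ (n + 5)
  have hδ : ∀ n, 0 < δ n := fun n => by positivity
  have hlt : ∀ m n, m < n → Disjoint (strip p q (c m) (δ m)) (strip p q (c n) (δ n)) := by
    intro m n hmn
    have e1 : c n ≤ c m / 2 := by
      have : c m / 2 = (1 / 2 : ℝ) ^ (m + 1 + 2) := by
        show (1 / 2 : ℝ) ^ (m + 2) / 2 = _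
        rw [show m + 1 + 2 = (m + 2) + 1 from by ring, pow_succ]; ring
      rw [this]
      exact pow_le_pow_of_le_one (by norm_num) (by norm_num) (by omega)
    have e2 : δ n ≤ δ m := pow_le_pow_of_le_one (by norm_num) (by norm_num) (by omega)
    have e3 : δ m = c m / 8 := by
      show (1 / 2 : ℝ) ^ (m + 5) = (1 / 2 : ℝ) ^ (m + 2) / 8
      rw [show m + 5 = (m + 2) + 3 from by ring, pow_add]; norm_num; ring
    have e4 : 0 < c m := by positivity
    have e5 : c m ≤ 1 / 4 := by
      have : c m ≤ (1 / 2 : ℝ) ^ 2 := pow_le_pow_of_le_one (by norm_num) (by norm_num) (by omega)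
      linarith
    have e6 : 0 < c n := by positivity
    have e7 : |c m - c n| = c m - c n := abs_of_nonneg (by linarith)
    apply disjoint_strip
    · rw [e7]; linarith
    · rw [e7]; linarith
  have hdisj : ∀ m n, m ≠ n → Disjoint (strip p q (c m) (δ m)) (strip p q (c n) (δ n)) := by
    intro m n hmn
    rcases lt_or_gt_of_ne hmn with h | h
    · exact hlt m n h
    · exact (hlt n m h).symm
  have hsub : ∀ n, Subcontinuum (strip p q (c n) (δ n)) := fun n =>
    ⟨(isClosed_strip p q _ _).isCompact,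
      (isConnected_strip hp0 hq0 hpq (c n) (δ n) (hδ n).le).nonempty,
      (isConnected_strip hp0 hq0 hpq (c n) (δ n) (hδ n).le).isPreconnected⟩
  refine ⟨fun n => strip p q (c n) (δ n), fun n => ⟨hsub n, interior_strip hp0 _ _ (hδ n), ?_⟩,
    hdisj⟩
  intro h
  obtain ⟨z, hz⟩ := interior_strip (q := q) hp0 (c (n + 1)) (δ (n + 1)) (hδ (n + 1))
  have hz' : z ∈ setT (strip p q (c n) (δ n)) := by
    have : z ∈ (univ : Set (Sol p × Sol q)) := trivial
    rwa [← h] at this
  apply hz'.2
  exact ⟨strip p q (c (n + 1)) (δ (n + 1)), hsub (n + 1), hz,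
    (hdisj (n + 1) n (by omega)).inter_eq⟩

/-- **Disproof.** For all coprime `p, q ≥ 2` the `p`-adic and the `q`-adic solenoid are metrizable
indecomposable continua, and their product contains infinitely many pairwise disjoint subcontinua
`W n` with nonempty interior; in particular `T(W n)` is not the whole product. -/
theorem result (p q : ℕ) (hp : 2 ≤ p) (hq : 2 ≤ q) (hpq : p.Coprime q) :
    (IndecomposableContinuum (solenoid p) ∧ TopologicalSpace.MetrizableSpace (solenoid p)) ∧
    (IndecomposableContinuum (solenoid q) ∧ TopologicalSpace.MetrizableSpace (solenoid q)) ∧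
    ∃ W : ℕ → Set (solenoid p × solenoid q),
      (∀ n, Subcontinuum (W n) ∧ (interior (W n)).Nonempty ∧ setT (W n) ≠ univ) ∧
      ∀ m n, m ≠ n → Disjoint (W m) (W n) :=
  main p q hp hq hpq

end Pool.Agent.Results.MP_cdfe0d_gt.DisjointFatContinua
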